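import Pool.Agent.Helper37.KDB.Extra

/-! Project KDB, piece P4: tail and first moment of the kick law. -/

set_option autoImplicit false

namespace KDB.I.P4

open MeasureTheory KDB Set
open scoped ENNReal

lemma norm_le_e2 {d : ℕ} (w : V d) : ‖w‖ ≤ e2 w := by
  unfold e2
  rw [pi_norm_le_iff_of_nonneg (Real.sqrt_nonneg _)]
  intro i
  rw [Real.norm_eq_abs]
  apply Real.abs_le_sqrt
  exact Finset.single_le_sum (f := fun i => w i ^ 2) (fun j _ => sq_nonneg (w j))
    (Finset.mem_univ i)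

lemma ball_vol (d : ℕ) : (volume : Measure (V d)).real (Metric.ball 0 1) = 2 ^ d := by
  rw [Measure.real, Real.volume_pi_ball _ one_pos]
  simp

lemma polar (d : ℕ) (hd : 1 ≤ d) (g : V d → ℝ) (f : ℝ → ℝ) (h0 : ∀ w, 0 ≤ g w)
    (h : ∀ w, g w ≤ f ‖w‖) (hi : IntegrableOn (fun y : ℝ => y ^ (d - 1) * f y) (Ioi 0)) :
    ∫ w, g w ≤ d * (2 ^ d * ∫ y in Ioi (0 : ℝ), y ^ (d - 1) * f y) := by
  have : Nonempty (Fin d) := ⟨⟨0, hd⟩⟩
  have hfr : Module.finrank ℝ (V d) = d := by simp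
  have hint : Integrable (fun w : V d => f ‖w‖) volume := by
    rw [integrable_fun_norm_addHaar]
    simpa [hfr] using hi
  calc ∫ w, g w ≤ ∫ w : V d, f ‖w‖ :=
        integral_mono_of_nonneg (Filter.Eventually.of_forall h0) hint
          (Filter.Eventually.of_forall h)
    _ = _ := by
        rw [integral_fun_norm_addHaar, hfr, ball_vol]
        simp [nsmul_eq_mul]

variable (p : Par)

lemma two_s (hp : p.Ok) : 2 * p.s = (p.q : ℝ)⁻¹ := by
  have hq : (0 : ℝ) < p.q := by exact_mod_cast hp.hq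
  unfold Par.s
  field_simp

lemma two_s_pos (hp : p.Ok) : 0 < 2 * p.s := by
  have hq : (0 : ℝ) < p.q := by exact_mod_cast hp.hq
  rw [two_s p hp]
  positivity

lemma kd_le (hp : p.Ok) (w : V p.d) : p.kd w ≤ p.lam * ‖w‖ ^ (-((p.d : ℝ) + 2 * p.s)) := by
  have hs := two_s_pos p hp
  have hlam := hp.hlam
  have heps := hp.heps
  have hd : (0 : ℝ) ≤ p.d := Nat.cast_nonneg _
  unfold Par.kd
  split_ifs with hc
  · apply mul_le_mul_of_nonneg_left _ hlam.le
    apply Real.rpow_le_rpow_of_nonpos (lt_of_lt_of_le heps hc.1) (norm_le_e2 w)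
    linarith
  · positivity

lemma kd_nonneg (hp : p.Ok) (w : V p.d) : 0 ≤ p.kd w := by
  have hlam := hp.hlam
  unfold Par.kd
  split_ifs with hc
  · exact mul_nonneg hlam.le (Real.rpow_nonneg (Real.sqrt_nonneg _) _)
  · exact le_rfl

theorem rho_rpow (hp : p.Ok) (k : ℕ) : p.rho k ^ (-(2 * p.s)) = ((p.L : ℝ) ^ k)⁻¹ := by
  have hq : (p.q : ℝ) ≠ 0 := by
    have := hp.hq
    positivity
  have hL : (0 : ℝ) ≤ (p.L : ℝ) := Nat.cast_nonneg _
  have h1 : p.rho k = ((p.L : ℝ) ^ k) ^ (p.q : ℝ) := by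
    unfold Par.rho Par.ell
    rw [Real.rpow_natCast]
    push_cast
    rw [← pow_mul, ← pow_mul, mul_comm]
  rw [h1, two_s p hp, ← Real.rpow_mul (pow_nonneg hL k)]
  have h2 : (p.q : ℝ) * -(p.q : ℝ)⁻¹ = -1 := by
    field_simp
  rw [h2, Real.rpow_neg_one]

/-- mass of the large kicks -/
theorem kick_tail (hp : p.Ok) (r : ℝ) (hr : 0 < r) :
    ∫ w in {w : V p.d | r ≤ ‖w‖}, p.kd w ≤
      p.lam * (2 ^ p.d * p.d * p.q) * r ^ (-(2 * p.s)) := by
  have hs := two_s_pos p hp
  have hlam := hp.hlam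
  have hq : (0 : ℝ) < p.q := by exact_mod_cast hp.hq
  have hd1 := hp.hd
  have hms : MeasurableSet {w : V p.d | r ≤ ‖w‖} :=
    measurableSet_le measurable_const measurable_norm
  obtain ⟨e, he⟩ : ∃ e : ℝ, e = -(1 + 2 * p.s) := ⟨_, rfl⟩
  have hkey : ∀ y ∈ Ioi (0 : ℝ), y ^ (p.d - 1) *
      ((Ici r).indicator (fun t : ℝ => p.lam * t ^ (-((p.d : ℝ) + 2 * p.s))) y) =
      (Ici r).indicator (fun t : ℝ => p.lam * t ^ e) y := by
    intro y hy
    have hy0 : (0 : ℝ) < y := hy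
    by_cases hyr : y ∈ Ici r
    · rw [indicator_of_mem hyr, indicator_of_mem hyr]
      have h3 : y ^ (p.d - 1) = y ^ ((p.d : ℝ) - 1) := by
        rw [← Real.rpow_natCast, Nat.cast_sub hd1, Nat.cast_one]
      rw [h3, mul_left_comm, ← Real.rpow_add hy0, he]
      congr 2
      ring
    · rw [indicator_of_notMem hyr, indicator_of_notMem hyr, mul_zero]
  have hint : IntegrableOn (fun t : ℝ => p.lam * t ^ e) (Ioi r) :=
    (integrableOn_Ioi_rpow_of_lt (by rw [he]; linarith) hr).const_mul _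
  have hint2 : IntegrableOn (fun t : ℝ => p.lam * t ^ e) (Ici r) :=
    (integrableOn_Ici_iff_integrableOn_Ioi (by exact enorm_ne_top)).mpr hint
  have hsub : Ioi (0 : ℝ) ∩ Ici r = Ici r := by
    apply inter_eq_right.mpr
    intro y hy
    exact lt_of_lt_of_le hr hy
  have h4 := polar p.d hd1 ({w : V p.d | r ≤ ‖w‖}.indicator fun w => p.kd w)
    ((Ici r).indicator (fun t : ℝ => p.lam * t ^ (-((p.d : ℝ) + 2 * p.s))))
    (fun w => indicator_nonneg (fun w _ => kd_nonneg p hp w) w)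
    (by
      intro w
      by_cases hw : r ≤ ‖w‖
      · rw [indicator_of_mem (show w ∈ {w : V p.d | r ≤ ‖w‖} from hw),
          indicator_of_mem (show ‖w‖ ∈ Ici r from hw)]
        exact kd_le p hp w
      · rw [indicator_of_notMem (show w ∉ {w : V p.d | r ≤ ‖w‖} from hw),
          indicator_of_notMem (show ‖w‖ ∉ Ici r from hw)])
    (by
      rw [integrableOn_congr_fun hkey measurableSet_Ioi]
      exact ((integrable_indicator_iff measurableSet_Ici).mpr hint2).integrableOn)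
  rw [integral_indicator hms] at h4
  rw [setIntegral_congr_fun measurableSet_Ioi hkey, setIntegral_indicator measurableSet_Ici, hsub,
    integral_Ici_eq_integral_Ioi, integral_const_mul,
    integral_Ioi_rpow_of_lt (by rw [he]; linarith) hr] at h4
  refine h4.trans (le_of_eq ?_)
  have h5 : e + 1 = -(2 * p.s) := by rw [he]; ring
  rw [h5]
  have h6 : 2 * p.s = (p.q : ℝ)⁻¹ := two_s p hp
  rw [h6]
  field_simp

/-- first moment of the small kicks -/
theorem kick_mom (hp : p.Ok) (hq : 2 ≤ p.q) (r : ℝ) (hr : 0 < r) :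
    ∫ w in {w : V p.d | ‖w‖ < r}, ‖w‖ * p.kd w ≤
      p.lam * (2 ^ (p.d + 1) * p.d) * r ^ (1 - 2 * p.s) := by
  have hs := two_s_pos p hp
  have hlam := hp.hlam
  have hq2 : (2 : ℝ) ≤ p.q := by exact_mod_cast hq
  have hs2 : 2 * p.s ≤ 1 / 2 := by
    rw [two_s p hp]
    rw [inv_le_comm₀ (by linarith) (by norm_num)]
    norm_num
    exact hq
  have hd1 := hp.hd
  have hms : MeasurableSet {w : V p.d | ‖w‖ < r} :=
    measurableSet_lt measurable_norm measurable_const
  obtain ⟨e, he⟩ : ∃ e : ℝ, e = -(2 * p.s) := ⟨_, rfl⟩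
  have hkey : ∀ y ∈ Ioi (0 : ℝ), y ^ (p.d - 1) *
      ((Iio r).indicator (fun t : ℝ => t * (p.lam * t ^ (-((p.d : ℝ) + 2 * p.s)))) y) =
      (Iio r).indicator (fun t : ℝ => p.lam * t ^ e) y := by
    intro y hy
    have hy0 : (0 : ℝ) < y := hy
    by_cases hyr : y ∈ Iio r
    · rw [indicator_of_mem hyr, indicator_of_mem hyr]
      have h3 : y ^ (p.d - 1) * y = y ^ (p.d : ℝ) := by
        rw [Real.rpow_natCast, ← pow_succ, Nat.sub_add_cancel hd1]
      rw [← mul_assoc, h3, mul_left_comm, ← Real.rpow_add hy0, he]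
      congr 2
      ring
    · rw [indicator_of_notMem hyr, indicator_of_notMem hyr, mul_zero]
  have hii : IntervalIntegrable (fun t : ℝ => p.lam * t ^ e) volume 0 r :=
    (intervalIntegral.intervalIntegrable_rpow' (by rw [he]; linarith)).const_mul _
  have hint : IntegrableOn (fun t : ℝ => p.lam * t ^ e) (Ioc 0 r) := by
    rwa [intervalIntegrable_iff_integrableOn_Ioc_of_le hr.le] at hii
  have hint2 : IntegrableOn (fun t : ℝ => p.lam * t ^ e) (Ioo 0 r) :=
    hint.mono_set Ioo_subset_Ioc_self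
  have hsub : Ioi (0 : ℝ) ∩ Iio r = Ioo 0 r := rfl
  have h4 := polar p.d hd1 ({w : V p.d | ‖w‖ < r}.indicator fun w => ‖w‖ * p.kd w)
    ((Iio r).indicator (fun t : ℝ => t * (p.lam * t ^ (-((p.d : ℝ) + 2 * p.s)))))
    (fun w => indicator_nonneg (fun w _ => mul_nonneg (norm_nonneg _) (kd_nonneg p hp w)) w)
    (by
      intro w
      by_cases hw : ‖w‖ < r
      · rw [indicator_of_mem (show w ∈ {w : V p.d | ‖w‖ < r} from hw),
          indicator_of_mem (show ‖w‖ ∈ Iio r from hw)]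
        exact mul_le_mul_of_nonneg_left (kd_le p hp w) (norm_nonneg _)
      · rw [indicator_of_notMem (show w ∉ {w : V p.d | ‖w‖ < r} from hw),
          indicator_of_notMem (show ‖w‖ ∉ Iio r from hw)])
    (by
      rw [integrableOn_congr_fun hkey measurableSet_Ioi]
      rw [IntegrableOn, integrable_indicator_iff measurableSet_Iio, IntegrableOn,
        Measure.restrict_restrict measurableSet_Iio, inter_comm, hsub]
      exact hint2)
  rw [integral_indicator hms] at h4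
  rw [setIntegral_congr_fun measurableSet_Ioi hkey, setIntegral_indicator measurableSet_Iio, hsub,
    ← integral_Ioc_eq_integral_Ioo, ← intervalIntegral.integral_of_le hr.le,
    intervalIntegral.integral_const_mul,
    integral_rpow (Or.inl (by rw [he]; linarith))] at h4
  refine h4.trans ?_
  have h5 : e + 1 = 1 - 2 * p.s := by rw [he]; ring
  rw [h5, Real.zero_rpow (by linarith), sub_zero]
  have h7 : r ^ (1 - 2 * p.s) / (1 - 2 * p.s) ≤ 2 * r ^ (1 - 2 * p.s) := by
    rw [div_le_iff₀ (by linarith)]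
    have h8 : 0 ≤ r ^ (1 - 2 * p.s) := Real.rpow_nonneg hr.le _
    nlinarith
  have h9 : (0 : ℝ) ≤ (p.d : ℝ) * (2 ^ p.d * p.lam) := by positivity
  calc (p.d : ℝ) * (2 ^ p.d * (p.lam * (r ^ (1 - 2 * p.s) / (1 - 2 * p.s))))
      = ((p.d : ℝ) * (2 ^ p.d * p.lam)) * (r ^ (1 - 2 * p.s) / (1 - 2 * p.s)) := by ring
    _ ≤ ((p.d : ℝ) * (2 ^ p.d * p.lam)) * (2 * r ^ (1 - 2 * p.s)) :=
        mul_le_mul_of_nonneg_left h7 h9
    _ = _ := by ring

end KDB.I.P4
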